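import Pool.Agent.Helper82.PN.Goals
import Pool.Agent.Helper13.LW.PLE

/-! # Project PN, packet PLX -/

set_option autoImplicit false

open MeasureTheory Set
open scoped ENNReal
open Pool.Agent.Helper47.AQ Pool.Agent.Helper82.PN

noncomputable section

namespace Pool.Agent.Helper17.PN

theorem sum_sub_eq {ι : Type} [Fintype ι] (p x y : ι → ℝ) :
    ∑ i, p i * (x i - y i) = ∑ i, p i * x i + ∑ i, (-p) i * y i := by
  rw [← Finset.sum_add_distrib]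
  exact Finset.sum_congr rfl fun i _ => by simp only [Pi.neg_apply]; ring

theorem wd_le {ι : Type} [Fintype ι] {K : Set (ι → ℝ)} (h : IsBody K) (p : ι → ℝ) (c : ℝ)
    (hc : ∀ x ∈ K, ∀ y ∈ K, ∑ i, p i * (x i - y i) ≤ c) : wd K p ≤ c := by
  have h1 : ∀ y ∈ K, hs K p ≤ c - ∑ i, (-p) i * y i := by
    intro y hy
    refine h.hs_le _ _ fun x hx => ?_
    have := hc x hx y hy
    rw [sum_sub_eq] at this
    linarith
  have h2 : hs K (-p) ≤ c - hs K p := by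
    refine h.hs_le _ _ fun y hy => ?_
    have := h1 y hy
    linarith
  unfold wd
  linarith

theorem le_wd' {ι : Type} [Fintype ι] {K : Set (ι → ℝ)} (h : IsBody K) (p : ι → ℝ)
    {x y : ι → ℝ} (hx : x ∈ K) (hy : y ∈ K) : ∑ i, p i * (x i - y i) ≤ wd K p := by
  rw [sum_sub_eq]
  exact add_le_add (h.le_hs p hx) (h.le_hs (-p) hy)

theorem wd_fib {m : ℕ} {K₀ K₁ L : Set (Fin (m + 1) → ℝ)} {ρ : ℝ} (hρ0 : 0 < ρ) (hρ1 : ρ < 1)
    (h0 : IsBody K₀) (h1 : IsBody K₁) (hL : IsBody L) (hf : FibV (Pi.single 0 1) K₀ K₁ L ρ)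
    {s₀ s₁ : ℝ} (hs₀ : 0 < s₀) (hs₁ : 0 < s₁) (ξ₀ ξ₁ : Fin m → ℝ) {l₀ l₁ s : ℝ}
    (hs : s = (1 - ρ) * s₀ + ρ * s₁) (hl₀ : l₀ = (1 - ρ) * s₀ / s) (hl₁ : l₁ = ρ * s₁ / s) :
    wd L (Fin.cons (1 / s) (fun i => l₀ * ξ₀ i + l₁ * ξ₁ i) : Fin (m + 1) → ℝ) ≤
      l₀ * wd K₀ (Fin.cons (1 / s₀) ξ₀ : Fin (m + 1) → ℝ) +
        l₁ * wd K₁ (Fin.cons (1 / s₁) ξ₁ : Fin (m + 1) → ℝ) := by
  have hspos : 0 < s := by
    rw [hs]
    have : 0 < 1 - ρ := by linarith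
    positivity
  have hl₀' : 0 ≤ l₀ := by
    rw [hl₀]
    have : 0 < 1 - ρ := by linarith
    positivity
  have hl₁' : 0 ≤ l₁ := by rw [hl₁]; positivity
  refine wd_le hL _ _ ?_
  intro z hz z' hz'
  obtain ⟨x, hx, y, hy, ⟨a, ha⟩, hzz⟩ := hf z hz
  obtain ⟨x', hx', y', hy', ⟨a', ha'⟩, hzz'⟩ := hf z' hz'
  have e1 : ∀ j : Fin m, x j.succ = y j.succ := by
    intro j
    have := congrFun ha j.succ
    simp at this
    linarith
  have e1' : ∀ j : Fin m, x' j.succ = y' j.succ := by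
    intro j
    have := congrFun ha' j.succ
    simp at this
    linarith
  have k0 := le_wd' h0 (Fin.cons (1 / s₀) ξ₀ : Fin (m + 1) → ℝ) hx hx'
  have k1 := le_wd' h1 (Fin.cons (1 / s₁) ξ₁ : Fin (m + 1) → ℝ) hy hy'
  rw [Fin.sum_univ_succ] at k0 k1 ⊢
  simp only [Fin.cons_zero, Fin.cons_succ] at k0 k1 ⊢
  have e2 : ∑ j : Fin m, (l₀ * ξ₀ j + l₁ * ξ₁ j) * (z j.succ - z' j.succ) =
      l₀ * ∑ j : Fin m, ξ₀ j * (x j.succ - x' j.succ) +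
      l₁ * ∑ j : Fin m, ξ₁ j * (y j.succ - y' j.succ) := by
    rw [Finset.mul_sum, Finset.mul_sum, ← Finset.sum_add_distrib]
    refine Finset.sum_congr rfl fun j _ => ?_
    rw [hzz, hzz']
    simp only [Pi.add_apply, Pi.smul_apply, smul_eq_mul, ← e1, ← e1']
    ring
  have e3 : 1 / s * (z 0 - z' 0) = l₀ * (1 / s₀ * (x 0 - x' 0)) + l₁ * (1 / s₁ * (y 0 - y' 0)) := by
    rw [hzz, hzz', hl₀, hl₁]
    simp only [Pi.add_apply, Pi.smul_apply, smul_eq_mul]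
    field_simp
    ring
  rw [e2, e3]
  have := mul_le_mul_of_nonneg_left k0 hl₀'
  have := mul_le_mul_of_nonneg_left k1 hl₁'
  nlinarith

theorem meas {m : ℕ} {K : Set (Fin (m + 1) → ℝ)} (h : IsBody K) (s : ℝ) :
    Measurable (fun ξ : Fin m → ℝ =>
      Real.exp (-(wd K (Fin.cons (1 / s) ξ : Fin (m + 1) → ℝ)))) := by
  have hc : Continuous (fun ξ : Fin m → ℝ => (Fin.cons (1 / s) ξ : Fin (m + 1) → ℝ)) := by
    refine continuous_pi fun i => ?_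
    refine Fin.cases ?_ (fun j => ?_) i
    · simpa using continuous_const
    · simpa using continuous_apply j
  exact (Real.continuous_exp.comp (h.wd_continuous.comp hc).neg).measurable

theorem real_ineq {f0 f1 f l0 l1 : ℝ} (h0 : 0 < f0) (h1 : 0 < f1) (hl0 : 0 ≤ l0) (hl1 : 0 ≤ l1)
    (hl : l0 + l1 = 1) (h : f0 ^ l0 * f1 ^ l1 ≤ f) :
    √f0 * √f1 ≤ √f * (l0 * √f1 + l1 * √f0) := by
  have u0 : 0 < √f0 := Real.sqrt_pos.2 h0
  have u1 : 0 < √f1 := Real.sqrt_pos.2 h1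
  have s0 : f0 = √f0 ^ (2 : ℝ) := by
    rw [Real.rpow_two, Real.sq_sqrt h0.le]
  have s1 : f1 = √f1 ^ (2 : ℝ) := by
    rw [Real.rpow_two, Real.sq_sqrt h1.le]
  have k1 : √f0 ^ l0 * √f1 ^ l1 ≤ √f := by
    refine Real.le_sqrt_of_sq_le ?_
    refine le_trans (le_of_eq ?_) h
    conv_rhs => rw [s0, s1]
    rw [← Real.rpow_mul u0.le, ← Real.rpow_mul u1.le, mul_pow, ← Real.rpow_natCast,
      ← Real.rpow_natCast, ← Real.rpow_mul u0.le, ← Real.rpow_mul u1.le]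
    push_cast
    rw [mul_comm l0, mul_comm l1]
  have k2 : √f1 ^ l0 * √f0 ^ l1 ≤ l0 * √f1 + l1 * √f0 :=
    Real.geom_mean_le_arith_mean2_weighted hl0 hl1 u1.le u0.le hl
  have k3 : √f0 * √f1 = (√f0 ^ l0 * √f1 ^ l1) * (√f1 ^ l0 * √f0 ^ l1) := by
    have a0 : √f0 ^ l0 * √f0 ^ l1 = √f0 := by
      rw [← Real.rpow_add u0, hl, Real.rpow_one]
    have a1 : √f1 ^ l0 * √f1 ^ l1 = √f1 := by
      rw [← Real.rpow_add u1, hl, Real.rpow_one]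
    calc √f0 * √f1 = (√f0 ^ l0 * √f0 ^ l1) * (√f1 ^ l0 * √f1 ^ l1) := by rw [a0, a1]
      _ = _ := by ring
  rw [k3]
  exact mul_le_mul k1 k2 (by positivity) (Real.sqrt_nonneg _)

theorem gPLX : PFIN → PLX := by
  intro hP m K₀ K₁ L ρ hρ0 hρ1 h0 h1 hL hf s₀ s₁ hs₀ hs₁
  have hρ' : 0 < 1 - ρ := by linarith
  obtain ⟨s, hs⟩ : ∃ s, s = (1 - ρ) * s₀ + ρ * s₁ := ⟨_, rfl⟩
  have hspos : 0 < s := by rw [hs]; positivity
  obtain ⟨l₀, hl₀⟩ : ∃ l, l = (1 - ρ) * s₀ / s := ⟨_, rfl⟩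
  obtain ⟨l₁, hl₁⟩ : ∃ l, l = ρ * s₁ / s := ⟨_, rfl⟩
  have hl₀' : 0 < l₀ := by rw [hl₀]; positivity
  have hl₁' : 0 < l₁ := by rw [hl₁]; positivity
  have hl : l₀ + l₁ = 1 := by
    rw [hl₀, hl₁, ← add_div, ← hs, div_self hspos.ne']
  obtain ⟨-, -, f0, -, -⟩ := hP m K₀ h0
  obtain ⟨-, -, f1, -, -⟩ := hP m K₁ h1
  obtain ⟨-, -, fL, -, -⟩ := hP m L hL
  have g0 := f0 s₀ hs₀
  have g1 := f1 s₁ hs₁
  have gL := fL s hspos
  have hb : ∀ (K : Set (Fin (m + 1) → ℝ)), IsBody K → ∀ (p : Fin (m + 1) → ℝ),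
      0 ≤ Real.exp (-(wd K p)) ∧ Real.exp (-(wd K p)) ≤ 1 := by
    intro K hK p
    refine ⟨(Real.exp_pos _).le, ?_⟩
    rw [Real.exp_le_one_iff]
    have := hK.wd_nonneg p
    linarith
  have key := Pool.Agent.Helper13.LW.gPLE m
    (fun ξ => Real.exp (-(wd K₀ (Fin.cons (1 / s₀) ξ : Fin (m + 1) → ℝ))))
    (fun ξ => Real.exp (-(wd K₁ (Fin.cons (1 / s₁) ξ : Fin (m + 1) → ℝ))))
    (fun ξ => Real.exp (-(wd L (Fin.cons (1 / s) ξ : Fin (m + 1) → ℝ))))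
    l₁ 1 hl₁' (by linarith) (meas h0 s₀) (meas h1 s₁) (meas hL s)
    (fun ξ => hb K₀ h0 _) (fun ξ => hb K₁ h1 _) (fun ξ => hb L hL _) ?_
  · have e : 1 - l₁ = l₀ := by linarith
    rw [e] at key
    have key2 : (Fi K₀ s₀) ^ l₀ * (Fi K₁ s₁) ^ l₁ ≤ Fi L s := key
    have key3 : (Fi K₀ s₀).toReal ^ l₀ * (Fi K₁ s₁).toReal ^ l₁ ≤ (Fi L s).toReal := by
      have := ENNReal.toReal_mono gL.2 key2
      rwa [ENNReal.toReal_mul, ← ENNReal.toReal_rpow, ← ENNReal.toReal_rpow] at this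
    have p0 : 0 < (Fi K₀ s₀).toReal := ENNReal.toReal_pos g0.1 g0.2
    have p1 : 0 < (Fi K₁ s₁).toReal := ENNReal.toReal_pos g1.1 g1.2
    have key4 := real_ineq p0 p1 hl₀'.le hl₁'.le hl key3
    rw [← hs]
    unfold aK
    rw [div_mul_div_comm]
    rw [div_le_iff₀ (by positivity)]
    have e2 : √(Fi L s).toReal / s * ((1 - ρ) * (√(Fi K₁ s₁).toReal / s₁) +
        ρ * (√(Fi K₀ s₀).toReal / s₀)) * (s₀ * s₁) =
        √(Fi L s).toReal * (l₀ * √(Fi K₁ s₁).toReal + l₁ * √(Fi K₀ s₀).toReal) := by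
      rw [hl₀, hl₁]
      field_simp
    rw [e2]
    exact key4
  · intro x y
    have e : 1 - l₁ = l₀ := by linarith
    rw [e, ← Real.exp_mul, ← Real.exp_mul, ← Real.exp_add, Real.exp_le_exp]
    have := wd_fib hρ0 hρ1 h0 h1 hL hf hs₀ hs₁ x y hs hl₀ hl₁
    nlinarith

end Pool.Agent.Helper17.PN
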